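import Pool.Agent.helper62.W3.SpecA
import Pool.Agent.helper20.GD.BV1

/-!
# Project EC, engine, row BIL: one dyadic block of a bilinear form with the triangle weight
-/

set_option autoImplicit false

namespace Pool.Agent.EC

open Finset ArithmeticFunction MeasureTheory
open Pool.Agent.CH (Win rgh dl eU Mo ClP ClB)
open GD (kp ks)

/-- indicator of the interval of length `δ` around `c` -/
private noncomputable def BIL_I (c δ u : ℝ) : ℝ := Set.indicator (Set.Icc (c - δ / 2) (c + δ / 2)) 1 u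

private theorem BIL_I_eq (c δ u : ℝ) : BIL_I c δ u = if |c - u| ≤ δ / 2 then 1 else 0 := by
  unfold BIL_I
  rw [Set.indicator_apply]
  have h : u ∈ Set.Icc (c - δ / 2) (c + δ / 2) ↔ |c - u| ≤ δ / 2 := by
    rw [Set.mem_Icc, abs_le]
    constructor
    · rintro ⟨h1, h2⟩
      constructor <;> linarith
    · rintro ⟨h1, h2⟩
      constructor <;> linarith
  by_cases h' : |c - u| ≤ δ / 2
  · rw [if_pos (h.2 h'), if_pos h']
    rfl
  · rw [if_neg (fun h'' => h' (h.1 h'')), if_neg h']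

private theorem BIL_I_symm (v c δ u : ℝ) : BIL_I (v - c) δ u = BIL_I c δ (v - u) := by
  rw [BIL_I_eq, BIL_I_eq]
  have : |v - c - u| = |c - (v - u)| := by
    rw [← abs_neg]
    congr 1
    ring
  rw [this]

private theorem BIL_I_nonneg (c δ u : ℝ) : 0 ≤ BIL_I c δ u := by
  rw [BIL_I_eq]
  split_ifs
  · exact zero_le_one
  · exact le_rfl

private theorem BIL_I_integrable (c δ : ℝ) : Integrable (fun u => BIL_I c δ u) := by
  have h : Integrable (Set.indicator (Set.Icc (c - δ / 2) (c + δ / 2)) (1 : ℝ → ℝ)) := by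
    rw [integrable_indicator_iff measurableSet_Icc]
    exact (integrableOn_const (by simp) : IntegrableOn (fun _ : ℝ => (1 : ℝ)) (Set.Icc (c - δ / 2) (c + δ / 2)))
  exact h

private theorem BIL_I_integral (c δ : ℝ) (hδ : 0 ≤ δ) : ∫ u, BIL_I c δ u = δ := by
  unfold BIL_I
  rw [integral_indicator_one measurableSet_Icc, Real.volume_real_Icc]
  rw [max_eq_left (by linarith)]
  ring

private theorem BIL_II_eq (x w δ u : ℝ) : BIL_I x δ u * BIL_I w δ u =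
    Set.indicator (Set.Icc (max (x - δ / 2) (w - δ / 2)) (min (x + δ / 2) (w + δ / 2))) 1 u := by
  unfold BIL_I
  have := Set.Icc_inter_Icc (a₁ := x - δ / 2) (b₁ := x + δ / 2) (a₂ := w - δ / 2) (b₂ := w + δ / 2)
  rw [← this]
  simp only [Set.indicator_apply, Set.mem_inter_iff, Pi.one_apply]
  split_ifs <;> simp_all

private theorem BIL_II_integrable (x w δ : ℝ) : Integrable (fun u => BIL_I x δ u * BIL_I w δ u) := by
  have h : Integrable (Set.indicator (Set.Icc (max (x - δ / 2) (w - δ / 2)) (min (x + δ / 2) (w + δ / 2))) (1 : ℝ → ℝ)) := by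
    rw [integrable_indicator_iff measurableSet_Icc]
    exact (integrableOn_const measure_Icc_lt_top.ne : IntegrableOn (fun _ : ℝ => (1 : ℝ))
      (Set.Icc (max (x - δ / 2) (w - δ / 2)) (min (x + δ / 2) (w + δ / 2))))
  refine h.congr ?_
  filter_upwards with u
  exact (BIL_II_eq x w δ u).symm

private theorem BIL_II_integral (x w δ : ℝ) : ∫ u, BIL_I x δ u * BIL_I w δ u = max 0 (δ - |x - w|) := by
  simp_rw [BIL_II_eq]
  rw [integral_indicator_one measurableSet_Icc, Real.volume_real_Icc, max_comm]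
  congr 1
  rcases le_total x w with h | h
  · rw [max_eq_right (by linarith), min_eq_left (by linarith), abs_of_nonpos (by linarith)]
    ring
  · rw [max_eq_left (by linarith), min_eq_right (by linarith), abs_of_nonneg (by linarith)]
    ring

private theorem BIL_tri (v δ : ℝ) (hδ : 0 < δ) (a b : ℕ) (ha : 1 ≤ a) (hb : 1 ≤ b) :
    ∫ u, BIL_I (Real.log a) δ u * BIL_I (v - Real.log b) δ u = δ * tri v δ (a * b) := by
  rw [BIL_II_integral]
  unfold tri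
  rw [mul_max_of_nonneg _ _ hδ.le, mul_zero]
  congr 1
  have h1 : (a : ℝ) ≠ 0 := by exact_mod_cast (by omega : a ≠ 0)
  have h2 : (b : ℝ) ≠ 0 := by exact_mod_cast (by omega : b ≠ 0)
  push_cast
  rw [Real.log_mul h1 h2]
  have : Real.log a - (v - Real.log b) = Real.log a + Real.log b - v := by ring
  rw [this]
  field_simp

private theorem BIL_ivl (M : ℕ) (u δ : ℝ) (hδ : 0 < δ) (hδ1 : δ ≤ 1) : ∃ M₁ M₂ : ℕ, M₁ ≤ M₂ ∧
    ((M₂ - M₁ : ℕ) : ℝ) ≤ 4 * (M * δ) + 1 ∧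
    (Ioc M (2 * M)).filter (fun a : ℕ => |Real.log a - u| ≤ δ / 2) = Ioc M₁ M₂ := by
  rcases ((Ioc M (2 * M)).filter (fun a : ℕ => |Real.log a - u| ≤ δ / 2)).eq_empty_or_nonempty with h | h
  · refine ⟨0, 0, le_rfl, ?_, by rw [h]; simp⟩
    simp
    positivity
  · obtain ⟨a₁, ha₁, hmin⟩ := Finset.exists_min_image _ (fun a : ℕ => a) h
    obtain ⟨a₂, ha₂, hmax⟩ := Finset.exists_max_image _ (fun a : ℕ => a) h
    rw [mem_filter, mem_Ioc, abs_le] at ha₁ ha₂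
    obtain ⟨⟨h1, h2⟩, h3, h4⟩ := ha₁
    obtain ⟨⟨g1, g2⟩, g3, g4⟩ := ha₂
    have h12 : a₁ ≤ a₂ := by
      refine hmin a₂ ?_
      rw [mem_filter, mem_Ioc, abs_le]
      exact ⟨⟨g1, g2⟩, g3, g4⟩
    refine ⟨a₁ - 1, a₂, by omega, ?_, ?_⟩
    · have e : a₂ - (a₁ - 1) = (a₂ - a₁) + 1 := by omega
      rw [e]
      push_cast
      rw [Nat.cast_sub h12]
      have hp1 : (0 : ℝ) < a₁ := by exact_mod_cast (by omega : 0 < a₁)
      have hp2 : (0 : ℝ) < a₂ := by exact_mod_cast (by omega : 0 < a₂)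
      have hlog : Real.log a₂ ≤ Real.log a₁ + δ := by linarith
      have hle : (a₂ : ℝ) ≤ a₁ * Real.exp δ := by
        have := Real.exp_le_exp.2 hlog
        rw [Real.exp_add, Real.exp_log hp1, Real.exp_log hp2] at this
        exact this
      have hexp : Real.exp δ - 1 ≤ 2 * δ := by
        have := Real.abs_exp_sub_one_le (x := δ) (by rw [abs_of_pos hδ]; exact hδ1)
        rw [abs_of_pos hδ] at this
        exact (le_abs_self _).trans this
      have h2M : (a₁ : ℝ) ≤ 2 * M := by exact_mod_cast h2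
      have hM0 : (0 : ℝ) ≤ M := Nat.cast_nonneg M
      have hk : (a₁ : ℝ) * (Real.exp δ - 1) ≤ 2 * M * (2 * δ) := by
        refine mul_le_mul h2M hexp ?_ (by positivity)
        have := Real.one_le_exp hδ.le
        linarith
      nlinarith
    · ext x
      rw [mem_filter, mem_Ioc, mem_Ioc]
      constructor
      · intro hx
        have hx' : x ∈ (Ioc M (2 * M)).filter (fun a : ℕ => |Real.log a - u| ≤ δ / 2) := by
          rw [mem_filter, mem_Ioc]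
          exact hx
        have i1 : a₁ ≤ x := hmin x hx'
        have i2 : x ≤ a₂ := hmax x hx'
        omega
      · rintro ⟨i1, i2⟩
        have i1' : a₁ ≤ x := by omega
        have hp1 : (0 : ℝ) < a₁ := by exact_mod_cast (by omega : 0 < a₁)
        have hpx : (0 : ℝ) < x := by exact_mod_cast (by omega : 0 < x)
        have j1 : Real.log a₁ ≤ Real.log x := Real.log_le_log hp1 (by exact_mod_cast i1')
        have j2 : Real.log x ≤ Real.log a₂ := Real.log_le_log hpx (by exact_mod_cast i2)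
        refine ⟨⟨by omega, by omega⟩, ?_⟩
        rw [abs_le]
        constructor <;> linarith

private theorem BIL_pt {C : ℝ} (hC : 0 < C)
    (hBV : ∀ (Q R : ℕ) (c : ℕ → ℕ) (α β : ℕ → ℝ) (M₁ M₂ N₁ N₂ : ℕ),
      1 ≤ Q → 1 ≤ R → M₁ ≤ M₂ → N₁ ≤ N₂ →
      ∑ m ∈ Icc 1 Q, |∑ a ∈ Ioc M₁ M₂, ∑ b ∈ Ioc N₁ N₂, α a * β b * kp R m (c m) (a * b)| ≤
        C * (1 + Real.log Q) / R *
          √((((M₂ - M₁ : ℕ) : ℝ) + 4 * R ^ 2) * (((N₂ - N₁ : ℕ) : ℝ) + 4 * R ^ 2) *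
            (∑ a ∈ Ioc M₁ M₂, α a ^ 2) * (∑ b ∈ Ioc N₁ N₂, β b ^ 2)))
    (Q δ : ℝ) (R : ℕ) (r : ℕ → ℕ) (α β : ℕ → ℝ) (M K : ℕ) (hδ : 0 < δ) (hδ1 : δ ≤ 1) (hQ : 1 ≤ Q) (hR : 1 ≤ R)
    (u w : ℝ) :
    ∑ m ∈ Mo Q, |∑ a ∈ Ioc M (2 * M), ∑ b ∈ Ioc K (2 * K), α a * β b * kp R (30 * m) (r m) (a * b) *
        (BIL_I (Real.log a) δ u * BIL_I (Real.log b) δ w)| ≤
      25 * C * (1 + Real.log Q) / R * √((M * δ + R ^ 2) * (K * δ + R ^ 2)) *
        √((∑ a ∈ Ioc M (2 * M), α a ^ 2 * BIL_I (Real.log a) δ u) *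
          (∑ b ∈ Ioc K (2 * K), β b ^ 2 * BIL_I (Real.log b) δ w)) := by
  obtain ⟨M₁, M₂, hM, hMc, hMf⟩ := BIL_ivl M u δ hδ hδ1
  obtain ⟨K₁, K₂, hK, hKc, hKf⟩ := BIL_ivl K w δ hδ hδ1
  have hsum : ∀ (L L₁ L₂ : ℕ) (x : ℝ) (f : ℕ → ℝ),
      (Ioc L (2 * L)).filter (fun a : ℕ => |Real.log a - x| ≤ δ / 2) = Ioc L₁ L₂ →
      ∑ a ∈ Ioc L (2 * L), f a * BIL_I (Real.log a) δ x = ∑ a ∈ Ioc L₁ L₂, f a := by
    intro L L₁ L₂ x f hf
    rw [← hf, sum_filter]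
    refine sum_congr rfl fun a _ => ?_
    rw [BIL_I_eq]
    split_ifs
    · rw [mul_one]
    · rw [mul_zero]
  have hA := hsum M M₁ M₂ u (fun a => α a ^ 2) hMf
  have hB := hsum K K₁ K₂ w (fun a => β a ^ 2) hKf
  have hF : ∀ m, ∑ a ∈ Ioc M (2 * M), ∑ b ∈ Ioc K (2 * K), α a * β b * kp R (30 * m) (r m) (a * b) *
        (BIL_I (Real.log a) δ u * BIL_I (Real.log b) δ w) =
      ∑ a ∈ Ioc M₁ M₂, ∑ b ∈ Ioc K₁ K₂, α a * β b * kp R (30 * m) (r m) (a * b) := by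
    intro m
    rw [← hsum M M₁ M₂ u (fun a => ∑ b ∈ Ioc K₁ K₂, α a * β b * kp R (30 * m) (r m) (a * b)) hMf]
    refine sum_congr rfl fun a _ => ?_
    rw [← hsum K K₁ K₂ w (fun b => α a * β b * kp R (30 * m) (r m) (a * b)) hKf, sum_mul]
    refine sum_congr rfl fun b _ => ?_
    ring
  simp_rw [hF]
  rw [hA, hB]
  have hQ30 : 1 ≤ ⌊30 * Q⌋₊ := by
    rw [Nat.one_le_floor_iff]
    linarith
  have hbv := hBV ⌊30 * Q⌋₊ R (fun m => r (m / 30)) α β M₁ M₂ K₁ K₂ hQ30 hR hM hK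
  have hinj : ∑ m ∈ Mo Q, |∑ a ∈ Ioc M₁ M₂, ∑ b ∈ Ioc K₁ K₂, α a * β b * kp R (30 * m) (r m) (a * b)| ≤
      ∑ m ∈ Icc 1 ⌊30 * Q⌋₊, |∑ a ∈ Ioc M₁ M₂, ∑ b ∈ Ioc K₁ K₂, α a * β b * kp R m (r (m / 30)) (a * b)| := by
    have himg : ∑ m ∈ Mo Q, |∑ a ∈ Ioc M₁ M₂, ∑ b ∈ Ioc K₁ K₂, α a * β b * kp R (30 * m) (r m) (a * b)| =
        ∑ m ∈ (Mo Q).image (fun m => 30 * m),
          |∑ a ∈ Ioc M₁ M₂, ∑ b ∈ Ioc K₁ K₂, α a * β b * kp R m (r (m / 30)) (a * b)| := by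
      rw [sum_image (fun x _ y _ h => by
        have h' : 30 * x = 30 * y := h
        omega)]
      refine sum_congr rfl fun m _ => ?_
      have : 30 * m / 30 = m := by omega
      rw [this]
    rw [himg]
    refine sum_le_sum_of_subset_of_nonneg ?_ (fun _ _ _ => abs_nonneg _)
    intro x hx
    rw [mem_image] at hx
    obtain ⟨m, hm, rfl⟩ := hx
    unfold Pool.Agent.CH.Mo at hm
    rw [mem_filter, mem_Icc] at hm
    obtain ⟨⟨hm1, hm2⟩, _⟩ := hm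
    rw [mem_Icc]
    refine ⟨by omega, ?_⟩
    rw [Nat.le_floor_iff (by linarith)]
    have : (m : ℝ) ≤ Q := (Nat.le_floor_iff (by linarith)).1 hm2
    push_cast
    linarith
  refine hinj.trans (hbv.trans ?_)
  have hR0 : (0 : ℝ) < R := by exact_mod_cast hR
  have hR1 : (1 : ℝ) ≤ R := by exact_mod_cast hR
  have hlogQ : 0 ≤ Real.log Q := Real.log_nonneg hQ
  have hlog : 1 + Real.log (⌊30 * Q⌋₊ : ℝ) ≤ 5 * (1 + Real.log Q) := by
    have h1 : Real.log (⌊30 * Q⌋₊ : ℝ) ≤ Real.log (30 * Q) :=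
      Real.log_le_log (by exact_mod_cast hQ30) (Nat.floor_le (by linarith))
    have h2 : Real.log (30 * Q) = Real.log 30 + Real.log Q := Real.log_mul (by norm_num) (by linarith)
    have h3 : Real.log 30 ≤ 4 := by
      have h4 : Real.log 30 ≤ Real.log 32 := Real.log_le_log (by norm_num) (by norm_num)
      have h5 : Real.log 32 = 5 * Real.log 2 := by
        rw [show (32 : ℝ) = 2 ^ (5 : ℕ) by norm_num, Real.log_pow]
        norm_num
      have h6 := Real.log_two_lt_d9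
      linarith
    linarith
  have hX : ((M₂ - M₁ : ℕ) : ℝ) + 4 * R ^ 2 ≤ 5 * (M * δ + R ^ 2) := by
    have hM0 : (0 : ℝ) ≤ M * δ := by positivity
    nlinarith
  have hY : ((K₂ - K₁ : ℕ) : ℝ) + 4 * R ^ 2 ≤ 5 * (K * δ + R ^ 2) := by
    have hM0 : (0 : ℝ) ≤ K * δ := by positivity
    nlinarith
  have hA0 : 0 ≤ ∑ a ∈ Ioc M₁ M₂, α a ^ 2 := sum_nonneg fun _ _ => sq_nonneg _
  have hB0 : 0 ≤ ∑ b ∈ Ioc K₁ K₂, β b ^ 2 := sum_nonneg fun _ _ => sq_nonneg _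
  have hsq : √((((M₂ - M₁ : ℕ) : ℝ) + 4 * R ^ 2) * (((K₂ - K₁ : ℕ) : ℝ) + 4 * R ^ 2) *
      (∑ a ∈ Ioc M₁ M₂, α a ^ 2) * (∑ b ∈ Ioc K₁ K₂, β b ^ 2)) ≤
      5 * (√((M * δ + R ^ 2) * (K * δ + R ^ 2)) * √((∑ a ∈ Ioc M₁ M₂, α a ^ 2) * (∑ b ∈ Ioc K₁ K₂, β b ^ 2))) := by
    rw [← Real.sqrt_mul (by positivity)]
    have h5 : (5 : ℝ) = √(25 : ℝ) := by
      rw [show (25 : ℝ) = 5 ^ 2 by norm_num, Real.sqrt_sq (by norm_num)]
    rw [h5, ← Real.sqrt_mul (by norm_num)]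
    refine Real.sqrt_le_sqrt ?_
    have hXY : (((M₂ - M₁ : ℕ) : ℝ) + 4 * R ^ 2) * (((K₂ - K₁ : ℕ) : ℝ) + 4 * R ^ 2) ≤
        (5 * (M * δ + R ^ 2)) * (5 * (K * δ + R ^ 2)) :=
      mul_le_mul hX hY (by positivity) (by positivity)
    calc (((M₂ - M₁ : ℕ) : ℝ) + 4 * R ^ 2) * (((K₂ - K₁ : ℕ) : ℝ) + 4 * R ^ 2) *
          (∑ a ∈ Ioc M₁ M₂, α a ^ 2) * (∑ b ∈ Ioc K₁ K₂, β b ^ 2)
        = ((((M₂ - M₁ : ℕ) : ℝ) + 4 * R ^ 2) * (((K₂ - K₁ : ℕ) : ℝ) + 4 * R ^ 2)) *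
          ((∑ a ∈ Ioc M₁ M₂, α a ^ 2) * (∑ b ∈ Ioc K₁ K₂, β b ^ 2)) := by ring
      _ ≤ ((5 * (M * δ + R ^ 2)) * (5 * (K * δ + R ^ 2))) *
          ((∑ a ∈ Ioc M₁ M₂, α a ^ 2) * (∑ b ∈ Ioc K₁ K₂, β b ^ 2)) :=
          mul_le_mul_of_nonneg_right hXY (mul_nonneg hA0 hB0)
      _ = _ := by ring
  have hc0 : 0 ≤ C * (1 + Real.log (⌊30 * Q⌋₊ : ℝ)) / R := by
    have : 0 ≤ Real.log (⌊30 * Q⌋₊ : ℝ) := Real.log_nonneg (by exact_mod_cast hQ30)
    positivity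
  calc C * (1 + Real.log (⌊30 * Q⌋₊ : ℝ)) / R *
        √((((M₂ - M₁ : ℕ) : ℝ) + 4 * R ^ 2) * (((K₂ - K₁ : ℕ) : ℝ) + 4 * R ^ 2) *
          (∑ a ∈ Ioc M₁ M₂, α a ^ 2) * (∑ b ∈ Ioc K₁ K₂, β b ^ 2))
      ≤ C * (1 + Real.log (⌊30 * Q⌋₊ : ℝ)) / R *
        (5 * (√((M * δ + R ^ 2) * (K * δ + R ^ 2)) *
          √((∑ a ∈ Ioc M₁ M₂, α a ^ 2) * (∑ b ∈ Ioc K₁ K₂, β b ^ 2)))) :=
        mul_le_mul_of_nonneg_left hsq hc0
    _ ≤ C * (5 * (1 + Real.log Q)) / R *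
        (5 * (√((M * δ + R ^ 2) * (K * δ + R ^ 2)) *
          √((∑ a ∈ Ioc M₁ M₂, α a ^ 2) * (∑ b ∈ Ioc K₁ K₂, β b ^ 2)))) := by
        refine mul_le_mul_of_nonneg_right ?_ (by positivity)
        gcongr
    _ = _ := by ring

private theorem BIL_amgm (A B t : ℝ) (hA : 0 ≤ A) (hB : 0 ≤ B) (ht : 0 < t) :
    √(A * B) ≤ (t * A + B / t) / 2 := by
  have h1 : A * B = (t * A) * (B / t) := by
    field_simp
  rw [h1]
  have h2 : 0 ≤ t * A := by positivity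
  have h3 : 0 ≤ B / t := by positivity
  rw [Real.sqrt_le_left (by positivity)]
  nlinarith [sq_nonneg (t * A - B / t)]

theorem BIL : BIL_stmt := by
  obtain ⟨C, hC, hBV⟩ := GD.BV1
  refine ⟨25 * C, by positivity, ?_⟩
  intro N Q v R r α β M K hN hQ hR hM hK
  set δ : ℝ := 1 / (N : ℝ) with hδdef
  have hN0 : (0 : ℝ) < N := by exact_mod_cast hN
  have hδ : 0 < δ := by positivity
  have hδ1 : δ ≤ 1 := by
    rw [hδdef, div_le_one hN0]
    exact_mod_cast hN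
  have hMδ : (M : ℝ) / N = M * δ := by rw [hδdef]; ring
  have hKδ : (K : ℝ) / N = K * δ := by rw [hδdef]; ring
  rw [hMδ, hKδ]
  set SA := ∑ a ∈ Ioc M (2 * M), α a ^ 2 with hSA
  set SB := ∑ b ∈ Ioc K (2 * K), β b ^ 2 with hSB
  have hSA0 : 0 ≤ SA := sum_nonneg fun _ _ => sq_nonneg _
  have hSB0 : 0 ≤ SB := sum_nonneg fun _ _ => sq_nonneg _
  have hR0 : (0 : ℝ) < R := by exact_mod_cast hR
  have hlogQ : 0 ≤ Real.log Q := Real.log_nonneg hQ
  have hrhs : 0 ≤ 25 * C * (1 + Real.log Q) / R * √((M * δ + (R : ℝ) ^ 2) * (K * δ + (R : ℝ) ^ 2) * SA * SB) := by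
    positivity
  rcases hSA0.eq_or_lt with hz | hSApos
  · have hz' : ∀ a ∈ Ioc M (2 * M), α a = 0 := by
      intro a ha
      have := (sum_eq_zero_iff_of_nonneg (fun i _ => sq_nonneg (α i))).1 hz.symm a ha
      exact pow_eq_zero_iff (two_ne_zero) |>.1 this
    have : ∑ m ∈ Mo Q, |∑ a ∈ Ioc M (2 * M), ∑ b ∈ Ioc K (2 * K),
      α a * β b * (tri v δ (a * b) * kp R (30 * m) (r m) (a * b))| = 0 := by
      refine sum_eq_zero fun m _ => ?_
      rw [abs_eq_zero]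
      refine sum_eq_zero fun a ha => sum_eq_zero fun b _ => ?_
      rw [hz' a ha]
      ring
    rw [this]
    exact hrhs
  rcases hSB0.eq_or_lt with hz | hSBpos
  · have hz' : ∀ a ∈ Ioc K (2 * K), β a = 0 := by
      intro a ha
      have := (sum_eq_zero_iff_of_nonneg (fun i _ => sq_nonneg (β i))).1 hz.symm a ha
      exact pow_eq_zero_iff (two_ne_zero) |>.1 this
    have : ∑ m ∈ Mo Q, |∑ a ∈ Ioc M (2 * M), ∑ b ∈ Ioc K (2 * K),
      α a * β b * (tri v δ (a * b) * kp R (30 * m) (r m) (a * b))| = 0 := by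
      refine sum_eq_zero fun m _ => ?_
      rw [abs_eq_zero]
      refine sum_eq_zero fun a _ => sum_eq_zero fun b hb => ?_
      rw [hz' b hb]
      ring
    rw [this]
    exact hrhs
  -- main case
  let F : ℕ → ℝ → ℝ := fun m u => ∑ a ∈ Ioc M (2 * M), ∑ b ∈ Ioc K (2 * K),
    α a * β b * kp R (30 * m) (r m) (a * b) * (BIL_I (Real.log a) δ u * BIL_I (v - Real.log b) δ u)
  have hFint : ∀ m, Integrable (F m) := by
    intro m
    refine integrable_finsetSum _ fun a _ => integrable_finsetSum _ fun b _ => ?_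
    exact (BIL_II_integrable _ _ _).const_mul _
  have hFI : ∀ m, ∫ u, F m u = δ * ∑ a ∈ Ioc M (2 * M), ∑ b ∈ Ioc K (2 * K),
      α a * β b * (tri v δ (a * b) * kp R (30 * m) (r m) (a * b)) := by
    intro m
    rw [mul_sum]
    rw [integral_finsetSum _ fun a _ => integrable_finsetSum _ fun b _ => (BIL_II_integrable _ _ _).const_mul _]
    refine sum_congr rfl fun a ha => ?_
    rw [integral_finsetSum _ fun b _ => (BIL_II_integrable _ _ _).const_mul _, mul_sum]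
    refine sum_congr rfl fun b hb => ?_
    rw [mem_Ioc] at ha hb
    rw [integral_const_mul, BIL_tri v δ hδ a b (by omega) (by omega)]
    ring
  set P : ℝ := 25 * C * (1 + Real.log Q) / R * √((M * δ + (R : ℝ) ^ 2) * (K * δ + (R : ℝ) ^ 2)) with hP
  have hP0 : 0 ≤ P := by positivity
  set t : ℝ := √(SB / SA) with ht
  have ht0 : 0 < t := Real.sqrt_pos.2 (div_pos hSBpos hSApos)
  let G : ℝ → ℝ := fun u => P * ((t * (∑ a ∈ Ioc M (2 * M), α a ^ 2 * BIL_I (Real.log a) δ u) +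
    (∑ b ∈ Ioc K (2 * K), β b ^ 2 * BIL_I (v - Real.log b) δ u) / t) / 2)
  have hi1 : Integrable fun u => ∑ a ∈ Ioc M (2 * M), α a ^ 2 * BIL_I (Real.log a) δ u :=
    integrable_finsetSum _ fun a _ => (BIL_I_integrable _ _).const_mul _
  have hi2 : Integrable fun u => ∑ b ∈ Ioc K (2 * K), β b ^ 2 * BIL_I (v - Real.log b) δ u :=
    integrable_finsetSum _ fun a _ => (BIL_I_integrable _ _).const_mul _
  have hGint : Integrable G :=
    (((hi1.const_mul t).add (hi2.div_const t)).div_const 2).const_mul P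
  have hGI : ∫ u, G u = P * ((t * (δ * SA) + (δ * SB) / t) / 2) := by
    have e1 : ∫ u, (∑ a ∈ Ioc M (2 * M), α a ^ 2 * BIL_I (Real.log a) δ u) = δ * SA := by
      rw [integral_finsetSum _ fun a _ => (BIL_I_integrable _ _).const_mul _, hSA, mul_sum]
      refine sum_congr rfl fun a _ => ?_
      rw [integral_const_mul, BIL_I_integral _ _ hδ.le]
      ring
    have e2 : ∫ u, (∑ b ∈ Ioc K (2 * K), β b ^ 2 * BIL_I (v - Real.log b) δ u) = δ * SB := by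
      rw [integral_finsetSum _ fun a _ => (BIL_I_integrable _ _).const_mul _, hSB, mul_sum]
      refine sum_congr rfl fun a _ => ?_
      rw [integral_const_mul, BIL_I_integral _ _ hδ.le]
      ring
    change ∫ u, P * ((t * (∑ a ∈ Ioc M (2 * M), α a ^ 2 * BIL_I (Real.log a) δ u) +
      (∑ b ∈ Ioc K (2 * K), β b ^ 2 * BIL_I (v - Real.log b) δ u) / t) / 2) = _
    rw [integral_const_mul, integral_div, integral_add (hi1.const_mul t) (hi2.div_const t), integral_const_mul,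
      integral_div, e1, e2]
  have hpt : ∀ u, ∑ m ∈ Mo Q, |F m u| ≤ G u := by
    intro u
    have h := BIL_pt hC hBV Q δ R r α β M K hδ hδ1 hQ hR u (v - u)
    simp_rw [← BIL_I_symm] at h
    refine h.trans ?_
    refine mul_le_mul_of_nonneg_left ?_ hP0
    refine BIL_amgm _ _ t (sum_nonneg fun _ _ => mul_nonneg (sq_nonneg _) (BIL_I_nonneg _ _ _))
      (sum_nonneg fun _ _ => mul_nonneg (sq_nonneg _) (BIL_I_nonneg _ _ _)) ht0
  have hkey : ∑ m ∈ Mo Q, |∫ u, F m u| ≤ ∫ u, G u := by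
    calc ∑ m ∈ Mo Q, |∫ u, F m u| ≤ ∑ m ∈ Mo Q, ∫ u, |F m u| :=
          sum_le_sum fun m _ => abs_integral_le_integral_abs
      _ = ∫ u, ∑ m ∈ Mo Q, |F m u| := (integral_finsetSum _ fun m _ => (hFint m).abs).symm
      _ ≤ ∫ u, G u := integral_mono (integrable_finsetSum _ fun m _ => (hFint m).abs) hGint hpt
  have hl : ∑ m ∈ Mo Q, |∫ u, F m u| = δ * ∑ m ∈ Mo Q, |∑ a ∈ Ioc M (2 * M), ∑ b ∈ Ioc K (2 * K),
      α a * β b * (tri v δ (a * b) * kp R (30 * m) (r m) (a * b))| := by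
    rw [mul_sum]
    refine sum_congr rfl fun m _ => ?_
    rw [hFI, abs_mul, abs_of_pos hδ]
  rw [hl, hGI] at hkey
  have hval : P * ((t * (δ * SA) + (δ * SB) / t) / 2) = δ * (P * √(SA * SB)) := by
    have hsA : 0 < √SA := Real.sqrt_pos.2 hSApos
    have hsB : 0 < √SB := Real.sqrt_pos.2 hSBpos
    have hA2 : √SA ^ 2 = SA := Real.sq_sqrt hSA0
    have hB2 : √SB ^ 2 = SB := Real.sq_sqrt hSB0
    have ht' : t = √SB / √SA := Real.sqrt_div hSB0 SA
    have e1 : t * SA = √SA * √SB := by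
      rw [ht']
      nth_rewrite 2 [← hA2]
      field_simp
    have e2 : SB / t = √SA * √SB := by
      rw [ht']
      nth_rewrite 1 [← hB2]
      field_simp
    rw [Real.sqrt_mul hSA0, ← e1]
    have e3 : t * SA = SB / t := e1.trans e2.symm
    have e4 : (t * (δ * SA) + (δ * SB) / t) / 2 = δ * ((t * SA + SB / t) / 2) := by ring
    rw [e4, ← e3]
    ring
  rw [hval] at hkey
  have hfin := le_of_mul_le_mul_left hkey hδ
  refine hfin.trans (le_of_eq ?_)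
  rw [hP, mul_assoc, ← Real.sqrt_mul (by positivity)]
  congr 2
  ring

end Pool.Agent.EC
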